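import Pool.Agent.R444.Rot.Dir1
import Pool.Agent.R444.Rot.Dir2

/-!
# The sequences with an irrational rotation limit do not form a Borel set (MP_9e8ffd)

The set `S` of all integer sequences `(n_k)` for which there is a point `z` of the unit circle that is
not a root of unity and satisfies `z ^ (n_k) → 1` is not a Borel subset of `ℤ^ℕ`. The proof is a
measurable reduction of the set of ill-founded trees to `S`.
-/

set_option autoImplicit false

open Filter Topology

namespace Pool.Agent.Results.MP_9e8ffd_lc.NotBorel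

open Pool.Agent.R444.Rot Pool.Agent.H534R3.NonBorel

/-- the integer sequences `(n_k)` with `z ^ (n_k) → 1` for some `z` in the unit circle that is not a
root of unity -/
def RotSeq : Set (ℕ → ℤ) :=
  {n | ∃ z : Circle, (∀ m : ℕ, 0 < m → z ^ m ≠ 1) ∧ Tendsto (fun k => z ^ (n k)) atTop (𝓝 1)}

theorem circle_tendsto (θ : ℝ) (n : ℕ → ℤ) :
    Tendsto (fun k => (AddCircle.toCircle (θ : AddCircle (1:ℝ))) ^ (n k)) atTop (𝓝 1) ↔
      Tendsto (fun k => nn ((n k : ℝ) * θ)) atTop (𝓝 0) := by
  have h1 : ∀ m : ℤ, (AddCircle.toCircle (θ : AddCircle (1:ℝ))) ^ m =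
      AddCircle.homeomorphCircle one_ne_zero (((m : ℝ) * θ : ℝ) : AddCircle (1:ℝ)) := by
    intro m
    rw [AddCircle.homeomorphCircle_apply, ← AddCircle.toCircle_zsmul, ← AddCircle.coe_zsmul,
      zsmul_eq_mul]
  have h0 : (1 : Circle) = AddCircle.homeomorphCircle one_ne_zero (0 : AddCircle (1:ℝ)) := by
    rw [AddCircle.homeomorphCircle_apply, AddCircle.toCircle_zero]
  simp only [h1]
  rw [h0]
  have h2 : Tendsto (fun k => AddCircle.homeomorphCircle one_ne_zero
      (((n k : ℝ) * θ : ℝ) : AddCircle (1:ℝ))) atTop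
      (𝓝 (AddCircle.homeomorphCircle one_ne_zero (0 : AddCircle (1:ℝ)))) ↔
      Tendsto (fun k => (((n k : ℝ) * θ : ℝ) : AddCircle (1:ℝ))) atTop (𝓝 0) := by
    constructor
    · intro h
      have := ((AddCircle.homeomorphCircle (T := (1:ℝ)) one_ne_zero).symm.continuous.tendsto
        _).comp h
      simpa [Function.comp_def] using this
    · intro h
      exact ((AddCircle.homeomorphCircle (T := (1:ℝ)) one_ne_zero).continuous.tendsto _).comp h
  rw [h2, tendsto_zero_iff_norm_tendsto_zero]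
  refine tendsto_congr fun k => ?_
  exact UnitAddCircle.norm_eq

theorem root_iff (θ : ℝ) (m : ℕ) :
    (AddCircle.toCircle (θ : AddCircle (1:ℝ))) ^ m = 1 ↔ ∃ z : ℤ, (m : ℝ) * θ = z := by
  rw [← AddCircle.toCircle_nsmul, ← AddCircle.coe_nsmul, nsmul_eq_mul]
  have h0 : (1 : Circle) = AddCircle.toCircle (0 : AddCircle (1:ℝ)) := AddCircle.toCircle_zero.symm
  rw [h0, (AddCircle.injective_toCircle one_ne_zero).eq_iff, AddCircle.coe_eq_zero_iff]
  constructor
  · rintro ⟨z, hz⟩
    exact ⟨z, by rw [← hz]; simp⟩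
  · rintro ⟨z, hz⟩
    exact ⟨z, by rw [hz]; simp⟩

theorem mem_iff (n : ℕ → ℤ) : n ∈ RotSeq ↔ ∃ θ : ℝ, (∀ m : ℕ, 0 < m → ∀ z : ℤ, (m : ℝ) * θ ≠ z) ∧
    Tendsto (fun k => nn ((n k : ℝ) * θ)) atTop (𝓝 0) := by
  constructor
  · rintro ⟨z, hz, hn⟩
    obtain ⟨θ, hθ⟩ := QuotientAddGroup.mk_surjective
      ((AddCircle.homeomorphCircle (T := (1:ℝ)) one_ne_zero).symm z)
    have hz' : z = AddCircle.toCircle (θ : AddCircle (1:ℝ)) := by
      have h1 : ((θ : ℝ) : AddCircle (1:ℝ)) =
        (AddCircle.homeomorphCircle (T := (1:ℝ)) one_ne_zero).symm z := hθ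
      rw [h1, ← AddCircle.homeomorphCircle_apply one_ne_zero, Homeomorph.apply_symm_apply]
    refine ⟨θ, fun m hm w hw => hz m hm ?_, ?_⟩
    · rw [hz', root_iff]
      exact ⟨w, hw⟩
    · rw [hz', circle_tendsto] at hn
      exact hn
  · rintro ⟨θ, hθ, hn⟩
    refine ⟨AddCircle.toCircle (θ : AddCircle (1:ℝ)), fun m hm h => ?_, ?_⟩
    · obtain ⟨w, hw⟩ := (root_iff θ m).1 h
      exact hθ m hm w hw
    · rw [circle_tendsto]
      exact hn

open Classical in
/-- the nodes with an initial segment outside the tree -/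
noncomputable def bd (t : List ℕ → Bool) (s : List ℕ) : Bool :=
  decide (∃ s' : List ℕ, s' <+: s ∧ t s' = false)

/-- the sequence attached to a tree -/
noncomputable def Φ (t : List ℕ → Bool) (k : ℕ) : ℤ :=
  if ((Denumerable.eqv (Kd × ℕ)).symm k).2 ≤ AA (bd t) ((Denumerable.eqv (Kd × ℕ)).symm k).1 then
    (((Denumerable.eqv (Kd × ℕ)).symm k).2 : ℤ) * MM ((Denumerable.eqv (Kd × ℕ)).symm k).1 else 0

theorem bd_measurable (s : List ℕ) : Measurable (fun t => bd t s) := by
  refine measurable_to_bool ?_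
  have : (fun t => bd t s) ⁻¹' {true} =
      ⋃ s' : List ℕ, ⋃ _ : s' <+: s, {t : List ℕ → Bool | t s' = false} := by
    ext t
    simp only [bd, Set.mem_preimage, Set.mem_singleton_iff, decide_eq_true_eq, Set.mem_iUnion,
      Set.mem_ofPred_eq, exists_prop]
  rw [this]
  exact MeasurableSet.iUnion fun s' => MeasurableSet.iUnion fun _ => mset s' false

theorem AA_measurable (κ : Kd) : Measurable (fun t => AA (bd t) κ) := by
  rcases κ with l | l | ⟨p, i⟩ | ⟨s, n⟩ | ⟨s, i⟩
  · exact measurable_const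
  · exact measurable_const
  · exact measurable_const
  · exact measurable_const
  · show Measurable (fun t => if bd t s then 2 ^ (Nat.pair (cd s 0) i) else 0)
    exact (Measurable.of_discrete (f := fun b : Bool => if b then 2 ^ (Nat.pair (cd s 0) i)
      else 0)).comp (bd_measurable s)

theorem Φ_measurable : Measurable Φ := by
  refine measurable_pi_lambda _ fun k => ?_
  set p := (Denumerable.eqv (Kd × ℕ)).symm k with hp
  have h : (fun t => Φ t k) = (fun a : ℕ => if p.2 ≤ a then ((p.2 : ℤ) * MM p.1) else 0) ∘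
      (fun t => AA (bd t) p.1) := by
    funext t
    simp only [Φ, Function.comp_apply, ← hp]
  rw [h]
  exact Measurable.of_discrete.comp (AA_measurable p.1)

theorem Φ_tendsto (t : List ℕ → Bool) (θ : ℝ) :
    Tendsto (fun k => nn ((Φ t k : ℝ) * θ)) atTop (𝓝 0) ↔
      Tendsto (fun κ => (AA (bd t) κ : ℝ) * nn ((MM κ : ℝ) * θ)) cofinite (𝓝 0) := by
  rw [← conv_iff, ← tendsto_comp_equiv (Denumerable.eqv (Kd × ℕ))]
  rfl

theorem preimage_eq : Φ ⁻¹' RotSeq =
    {t : List ℕ → Bool | ∃ f : ℕ → ℕ, ∀ n, t (br f n) = true} := by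
  ext t
  rw [Set.mem_preimage, mem_iff]
  simp only [Set.mem_ofPred_eq, Φ_tendsto]
  constructor
  · rintro ⟨θ, hirr, h⟩
    refine dir2 ?_ hirr h
    intro s s' hs ht
    simp only [bd, decide_eq_true_eq]
    exact ⟨s', hs, ht⟩
  · rintro ⟨f, hf⟩
    refine ⟨yy f 0, irr f, dir1 f (bd t) ?_⟩
    intro s hs
    simp only [bd, decide_eq_false_iff_not]
    rintro ⟨s', hs', ht⟩
    have h1 : s' = br f s'.length := by
      rw [hs] at hs'
      refine (List.prefix_of_prefix_length_le hs' (br_prefix f ?_) (by simp)).eq_of_length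
        (by simp)
      simpa using hs'.length_le
    rw [h1, hf] at ht
    exact absurd ht (by simp)

/-- `RotSeq` is not a Borel subset of `ℤ^ℕ` (product of the discrete topologies). -/
theorem result : ¬ @MeasurableSet (ℕ → ℤ) (borel (ℕ → ℤ)) RotSeq := by
  intro h
  have h1 : MeasurableSet RotSeq := by
    rw [← BorelSpace.measurable_eq (α := ℕ → ℤ)] at h
    exact h
  have h2 := Φ_measurable h1
  rw [preimage_eq] at h2
  exact illFounded_not_measurable h2

end Pool.Agent.Results.MP_9e8ffd_lc.NotBorel
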